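import Mathlib
import Pool.Agent.Helper579.IidCone

/-!
# The normalised errors of i.i.d. sampling can oscillate by an arbitrarily large factor

For every `R` and every `ε > 0` there is an admissible plane domain `D` between the unit square
`(0, 1) × (0, 1)` and `(-ε, 1) × (0, 1)` such that the upper limit of the sequence
`e(P_n) n^(1/4)` (Monte Carlo error, functions from `W_4^1(D)`, error in the sup-norm) is more than
`R` times its lower limit, and such that all numbers between the lower and the upper limit are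
limits of subsequences.
-/

set_option autoImplicit false

namespace Pool.Agent.Results.MP_961271_an.LargeOscillation

open Pool.Agent.Helper579.Iid MeasureTheory Set Filter
open scoped ENNReal Topology

/-! ### The set of subsequential limits -/

theorem step {e : ℕ → ℝ≥0∞} (he : Antitone e) {r : ℝ} {a : ℕ → ℝ≥0∞}
    (ha : ∀ n, a n = e n * ENNReal.ofReal ((n : ℝ) ^ r)) (n : ℕ) (hn : 1 ≤ n) :
    a (n + 1) ≤ a n * ENNReal.ofReal ((((n : ℝ) + 1) / n) ^ r) := by
  have hn0 : (0 : ℝ) < n := by exact_mod_cast hn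
  rw [ha, ha, mul_assoc, ← ENNReal.ofReal_mul (by positivity)]
  have h1 : (n : ℝ) ^ r * (((n : ℝ) + 1) / n) ^ r = ((n + 1 : ℕ) : ℝ) ^ r := by
    rw [← Real.mul_rpow hn0.le (by positivity)]
    congr 1
    push_cast
    field_simp
  rw [h1]
  gcongr
  exact he (Nat.le_succ n)

theorem tendsto_ratio (r : ℝ) :
    Tendsto (fun n : ℕ => ENNReal.ofReal ((((n : ℝ) + 1) / n) ^ r)) atTop (𝓝 1) := by
  have h1 : Tendsto (fun n : ℕ => ((n : ℝ) + 1) / n) atTop (𝓝 1) := by
    have h2 : Tendsto (fun n : ℕ => 1 + (n : ℝ)⁻¹) atTop (𝓝 (1 + 0)) :=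
      tendsto_const_nhds.add tendsto_inv_atTop_nhds_zero_nat
    rw [add_zero] at h2
    refine h2.congr' ?_
    filter_upwards [eventually_ge_atTop 1] with n hn
    have hn0 : (0 : ℝ) < n := by exact_mod_cast hn
    field_simp
  have h3 : Tendsto (fun n : ℕ => (((n : ℝ) + 1) / n) ^ r) atTop (𝓝 (1 ^ r)) :=
    h1.rpow_const (Or.inl one_ne_zero)
  rw [Real.one_rpow] at h3
  have h4 := ENNReal.tendsto_ofReal h3
  rwa [ENNReal.ofReal_one] at h4

theorem cluster_mid {e : ℕ → ℝ≥0∞} (he : Antitone e) {r : ℝ} {a : ℕ → ℝ≥0∞}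
    (ha : ∀ n, a n = e n * ENNReal.ofReal ((n : ℝ) ^ r)) {c : ℝ≥0∞}
    (h1 : liminf a atTop < c) (h2 : c < limsup a atTop) : MapClusterPt c atTop a := by
  have hc0 : c ≠ 0 := (lt_of_le_of_lt zero_le h1).ne'
  have hct : c ≠ ∞ := (lt_of_lt_of_le h2 le_top).ne
  have hf1 : ∃ᶠ n in atTop, a n < c := frequently_lt_of_liminf_lt (by isBoundedDefault) h1
  have hf2 : ∃ᶠ n in atTop, c < a n := frequently_lt_of_lt_limsup (by isBoundedDefault) h2
  rw [mapClusterPt_iff_frequently]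
  intro s hs
  obtain ⟨u, hu, hus⟩ : ∃ u, c < u ∧ Ico c u ⊆ s := by
    have h3 : s ∈ 𝓝[≥] c := mem_nhdsWithin_of_mem_nhds hs
    obtain ⟨u, hu, h4⟩ := (mem_nhdsGE_iff_exists_Ico_subset' (lt_top_iff_ne_top.2 hct)).1 h3
    exact ⟨u, hu, h4⟩
  have hev : ∀ᶠ n : ℕ in atTop, c * ENNReal.ofReal ((((n : ℝ) + 1) / n) ^ r) < u := by
    have h3 : Tendsto (fun n : ℕ => c * ENNReal.ofReal ((((n : ℝ) + 1) / n) ^ r)) atTop
        (𝓝 (c * 1)) := ENNReal.Tendsto.const_mul (tendsto_ratio r) (Or.inr hct)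
    rw [mul_one] at h3
    exact h3.eventually_lt_const hu
  obtain ⟨N₁, hN₁⟩ := eventually_atTop.1 hev
  rw [frequently_atTop] at hf1 hf2 ⊢
  intro N
  obtain ⟨n₁, hn₁, h5⟩ := hf1 (max (max N N₁) 1)
  obtain ⟨n₂, hn₂, h6⟩ := hf2 n₁
  classical
  have hex : ∃ j, c ≤ a (n₁ + j) := ⟨n₂ - n₁, by
    rw [Nat.add_sub_cancel' hn₂]
    exact h6.le⟩
  obtain ⟨j, hj, hmin⟩ : ∃ j, c ≤ a (n₁ + j) ∧ ∀ i < j, a (n₁ + i) < c :=
    ⟨Nat.find hex, Nat.find_spec hex, fun i hi => not_le.1 (Nat.find_min hex hi)⟩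
  have hj0 : j ≠ 0 := by
    rintro rfl
    exact absurd h5 (not_lt.2 hj)
  obtain ⟨i, rfl⟩ := Nat.exists_eq_succ_of_ne_zero hj0
  have h7 := hmin i (Nat.lt_succ_self i)
  have hge : max (max N N₁) 1 ≤ n₁ + i := le_trans hn₁ (Nat.le_add_right _ _)
  have h8 := step he ha (n₁ + i) ((le_max_right _ _).trans hge)
  refine ⟨n₁ + (i + 1), ((le_max_left _ _).trans (le_max_left _ _)).trans
    (hge.trans (by omega)), hus ⟨hj, ?_⟩⟩
  calc a (n₁ + (i + 1)) ≤ a (n₁ + i) *
        ENNReal.ofReal (((((n₁ + i : ℕ) : ℝ) + 1) / (n₁ + i : ℕ)) ^ r) := h8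
    _ ≤ c * ENNReal.ofReal (((((n₁ + i : ℕ) : ℝ) + 1) / (n₁ + i : ℕ)) ^ r) := by gcongr
    _ < u := hN₁ (n₁ + i) (((le_max_right _ _).trans (le_max_left _ _)).trans hge)

theorem cluster_set {e : ℕ → ℝ≥0∞} (he : Antitone e) {r : ℝ} {a : ℕ → ℝ≥0∞}
    (ha : ∀ n, a n = e n * ENNReal.ofReal ((n : ℝ) ^ r)) (hlt : liminf a atTop < limsup a atTop) :
    {c : ℝ≥0∞ | MapClusterPt c atTop a} = Icc (liminf a atTop) (limsup a atTop) := by
  apply Subset.antisymm
  · intro c hc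
    have hc' := mapClusterPt_iff_frequently.1 hc
    constructor
    · by_contra h
      obtain ⟨y, h1, h2⟩ := exists_between (not_le.1 h)
      have h3 : ∀ᶠ n in atTop, y < a n := eventually_lt_of_lt_liminf h2 (by isBoundedDefault)
      obtain ⟨n, h4, h5⟩ := ((hc' (Iio y) (Iio_mem_nhds h1)).and_eventually h3).exists
      exact lt_asymm h4 h5
    · by_contra h
      obtain ⟨y, h1, h2⟩ := exists_between (not_le.1 h)
      have h3 : ∀ᶠ n in atTop, a n < y := eventually_lt_of_limsup_lt h1 (by isBoundedDefault)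
      obtain ⟨n, h4, h5⟩ := ((hc' (Ioi y) (Ioi_mem_nhds h2)).and_eventually h3).exists
      exact lt_asymm h4 h5
  · rw [← closure_Ioo hlt.ne]
    refine closure_minimal (fun c hc => cluster_mid he ha hc.1 hc.2) ?_
    exact isClosed_setOfPred_clusterPt

/-! ### The domain -/

lemma rate_eq : rate 2 1 4 ∞ = 1 / 4 := by
  unfold rate
  simp only [ENNReal.toReal_inv, ENNReal.toReal_top, inv_zero, sub_zero]
  have h4 : (4 : ℝ≥0∞).toReal = 4 := by norm_num
  rw [h4]
  norm_num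

lemma root4 {x : ℝ} (hx : 0 ≤ x) : x ^ (1 / 4 : ℝ) = Real.sqrt (Real.sqrt x) := by
  rw [Real.sqrt_eq_rpow, Real.sqrt_eq_rpow, ← Real.rpow_mul hx]
  norm_num

lemma root4_pow {x : ℝ} (hx : 0 ≤ x) : Real.sqrt (Real.sqrt x) ^ 4 = x := by
  calc Real.sqrt (Real.sqrt x) ^ 4 = (Real.sqrt (Real.sqrt x) ^ 2) ^ 2 := by ring
    _ = x := by rw [Real.sq_sqrt (Real.sqrt_nonneg x), Real.sq_sqrt hx]

lemma good (b : ℕ) (hb : 1 ≤ b) (K : ℕ) :
    scaled (Dom b) 1 4 ∞ .ran (Ng b K ^ 2) ≤ ENNReal.ofReal (24 * KB + Cg) := by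
  have hN : (0 : ℝ) < Ng b K := by rw [Ng_cast]; positivity
  have hK := one_le_KB
  have hC := Cg_pos
  unfold scaled
  rw [rate_eq]
  have h1 : (((Ng b K ^ 2 : ℕ) : ℝ)) ^ (1 / 4 : ℝ) = Real.sqrt (Ng b K) := by
    push_cast
    rw [root4 (by positivity), Real.sqrt_sq hN.le]
  rw [h1]
  calc minErr (Dom b) 1 4 ∞ .ran (Ng b K ^ 2) * ENNReal.ofReal (Real.sqrt (Ng b K))
      ≤ ENNReal.ofReal ((24 * KB + Cg) * Real.sqrt (1 / (Ng b K : ℕ)))
        * ENNReal.ofReal (Real.sqrt (Ng b K)) := by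
        gcongr
        exact good_scale hb K
    _ = ENNReal.ofReal (24 * KB + Cg) := by
        rw [← ENNReal.ofReal_mul (by positivity), mul_assoc, ← Real.sqrt_mul (by positivity),
          one_div_mul_cancel hN.ne', Real.sqrt_one, mul_one]

lemma bad (m : ℕ) (hm : 1 ≤ m) (K : ℕ) :
    ENNReal.ofReal (2 ^ m / 16) ≤ scaled (Dom (2 * m)) 1 4 ∞ .ran (2 ^ (2 * m * (4 * K + 5))) := by
  set b := 2 * m with hb
  have hb1 : 1 ≤ b := by omega
  have hρ := rho_pos b K
  have hw := wid_pos b K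
  set n : ℕ := 2 ^ (b * (4 * K + 5)) with hn
  set x : ℝ := rho b K * wid b K with hx
  have hx0 : 0 < x := by positivity
  have hnx : x * n = 1 := by
    rw [hx, hn]
    unfold rho wid
    push_cast
    rw [← pow_add, show 2 * b * (K + 1) + b * (2 * K + 3) = b * (4 * K + 5) by ring, ← mul_pow]
    norm_num
  have hn0 : (0 : ℝ) < n := by rw [hn]; positivity
  obtain ⟨n', hn'⟩ : ∃ n', n = 2 * n' := by
    refine ⟨2 ^ (b * (4 * K + 5) - 1), ?_⟩
    rw [hn, ← pow_succ']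
    congr 1
    have : 1 ≤ b * (4 * K + 5) := by nlinarith
    omega
  have hx1 : x ≤ 1 / 2 := by
    have : (2 : ℝ) ≤ n := by
      have h1 : 1 ≤ n' := by
        rcases Nat.eq_zero_or_pos n' with h | h
        · rw [h] at hn'; rw [hn'] at hn0; norm_num at hn0
        · exact h
      have : 2 ≤ n := by omega
      exact_mod_cast this
    nlinarith
  have hprob : (1 : ℝ) / 4 ≤ (1 - x) ^ n := by
    have h1 : (1 : ℝ) / 2 ≤ (1 - x) ^ n' := by
      have h2 := one_add_mul_le_pow (a := -x) (by linarith) n'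
      have h3 : (n' : ℝ) * x = 1 / 2 := by
        have : (n : ℝ) = 2 * n' := by exact_mod_cast hn'
        rw [this] at hnx
        linarith
      have h4 : (1 : ℝ) + n' * -x = 1 / 2 := by linarith
      rw [h4] at h2
      rwa [← sub_eq_add_neg] at h2
    rw [hn', mul_comm 2 n', pow_mul]
    nlinarith
  set c : ℝ := (Real.sqrt (Real.sqrt (2 * x)))⁻¹ with hc
  have hc0 : 0 < c := by positivity
  have hc4 : c ^ 4 * (2 * x) = 1 := by
    rw [hc, inv_pow, root4_pow (by positivity)]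
    field_simp
  have hlow := bad_scale hb1 K n hc0 hc4.le
  unfold scaled
  rw [rate_eq, root4 hn0.le]
  have hX : (2 : ℝ) ^ m / 2 ≤ c * rho b K * Real.sqrt (Real.sqrt n) := by
    have h1 : (c * rho b K * Real.sqrt (Real.sqrt n)) ^ 4 = (2 ^ m) ^ 4 / 2 := by
      rw [mul_pow, mul_pow, root4_pow hn0.le]
      have e1 : c ^ 4 = 1 / (2 * x) := by
        rw [eq_div_iff (by positivity)]; exact hc4
      have e2 : (n : ℝ) = 1 / x := by
        rw [eq_div_iff hx0.ne', mul_comm]; exact hnx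
      have e3 : rho b K = (2 ^ m) ^ 2 * wid b K := by
        rw [wid_eq, hb, mul_comm (rho (2 * m) K), ← mul_assoc, ← pow_mul, mul_comm m 2, ← mul_pow]
        norm_num
      rw [e1, e2, hx]
      rw [e3]
      field_simp
    apply le_of_pow_le_pow_left₀ (n := 4) (by norm_num) (by positivity)
    rw [h1, div_pow]
    have : (0 : ℝ) < (2 ^ m) ^ 4 := by positivity
    norm_num
    linarith
  calc ENNReal.ofReal (2 ^ m / 16)
      ≤ ENNReal.ofReal (c * rho b K / 2 * (1 - x) ^ n * Real.sqrt (Real.sqrt n)) := by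
        apply ENNReal.ofReal_le_ofReal
        have h2 : 0 ≤ c * rho b K * Real.sqrt (Real.sqrt n) := by positivity
        calc (2 : ℝ) ^ m / 16 = 2 ^ m / 2 * (1 / 8) := by ring
          _ ≤ c * rho b K * Real.sqrt (Real.sqrt n) * (1 / 8) := by linarith
          _ = c * rho b K / 2 * (1 / 4) * Real.sqrt (Real.sqrt n) := by ring
          _ ≤ c * rho b K / 2 * (1 - x) ^ n * Real.sqrt (Real.sqrt n) := by gcongr
    _ = ENNReal.ofReal (c * rho b K / 2 * (1 - x) ^ n) * ENNReal.ofReal (Real.sqrt (Real.sqrt n)) := by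
        apply ENNReal.ofReal_mul
        have : 0 ≤ 1 - x := by linarith
        positivity
    _ ≤ _ := by gcongr

lemma limsup_ge (m : ℕ) (hm : 1 ≤ m) :
    ENNReal.ofReal (2 ^ m / 16) ≤ limsup (scaled (Dom (2 * m)) 1 4 ∞ Crit.ran) atTop := by
  apply le_limsup_of_frequently_le'
  rw [frequently_atTop]
  intro a
  refine ⟨2 ^ (2 * m * (4 * a + 5)), ?_, bad m hm a⟩
  have h2 : a < 2 ^ a := Nat.lt_two_pow_self
  have h3 : 2 ^ a ≤ 2 ^ (2 * m * (4 * a + 5)) := by
    apply Nat.pow_le_pow_right (by norm_num)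
    nlinarith
  exact h2.le.trans h3

lemma liminf_le (b : ℕ) (hb : 1 ≤ b) :
    liminf (scaled (Dom b) 1 4 ∞ Crit.ran) atTop ≤ ENNReal.ofReal (24 * KB + Cg) := by
  apply liminf_le_of_frequently_le'
  rw [frequently_atTop]
  intro a
  refine ⟨Ng b a ^ 2, ?_, good b hb a⟩
  have h2 : a < 2 ^ a := Nat.lt_two_pow_self
  have h3 : 2 ^ a ≤ Ng b a := by
    unfold Ng
    apply Nat.pow_le_pow_right (by norm_num)
    nlinarith
  nlinarith

lemma inScope : InScope 2 1 4 ∞ Crit.ran := by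
  unfold InScope
  refine ⟨le_rfl, by norm_num, le_top, Or.inl ?_, by norm_num⟩
  rw [ENNReal.toReal_inv]
  have h4 : (4 : ℝ≥0∞).toReal = 4 := by norm_num
  rw [h4]
  norm_num

/-- **Main result.** For every `R` and every `ε > 0` there is an admissible domain `D`,
`(0,1) × (0,1) ⊆ D ⊆ (-ε,1) × (0,1)`, such that the upper limit of the sequence
`e(P_n) n^(1/4)` (functions from `W_4^1(D)`, error in the sup-norm, Monte Carlo error) is more than
`R` times its lower limit, the set of the limits of convergent subsequences is the whole interval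
between the lower and the upper limit, and the sequence has no limit. -/
theorem result (R : NNReal) (ε : ℝ) (hε : 0 < ε) :
    InScope 2 1 4 ∞ Crit.ran ∧ rate 2 1 4 ∞ = 1 / 4 ∧
    ∃ D : Set (Fin 2 → ℝ), Admissible D ∧
      {x : Fin 2 → ℝ | (0 < x 0 ∧ x 0 < 1) ∧ (0 < x 1 ∧ x 1 < 1)} ⊆ D ∧
      D ⊆ {x : Fin 2 → ℝ | (-ε < x 0 ∧ x 0 < 1) ∧ (0 < x 1 ∧ x 1 < 1)} ∧
      R * liminf (scaled D 1 4 ∞ Crit.ran) atTop < limsup (scaled D 1 4 ∞ Crit.ran) atTop ∧
      liminf (scaled D 1 4 ∞ Crit.ran) atTop < limsup (scaled D 1 4 ∞ Crit.ran) atTop ∧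
      {c : ℝ≥0∞ | MapClusterPt c atTop (scaled D 1 4 ∞ Crit.ran)} =
        Icc (liminf (scaled D 1 4 ∞ Crit.ran) atTop) (limsup (scaled D 1 4 ∞ Crit.ran) atTop) ∧
      ¬ ∃ L : ℝ≥0∞, Tendsto (scaled D 1 4 ∞ Crit.ran) atTop (𝓝 L) := by
  have hK := one_le_KB
  have hC := Cg_pos
  set C := 24 * KB + Cg with hCdef
  have hC0 : 0 < C := by linarith
  obtain ⟨m₁, hm₁⟩ := pow_unbounded_of_one_lt (16 * ((R + 1) * C)) (one_lt_two (α := ℝ))
  obtain ⟨m₂, hm₂⟩ := exists_pow_lt_of_lt_one hε (show (1 / 2 : ℝ) < 1 by norm_num)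
  set m := m₁ + m₂ + 1 with hm
  have h1 : (R + 1) * C < 2 ^ m / 16 := by
    have h2 : (2 : ℝ) ^ m₁ ≤ 2 ^ m := pow_le_pow_right₀ (by norm_num) (by omega)
    linarith
  have hb : 1 ≤ 2 * m := by omega
  have hls := limsup_ge m (by omega)
  have hli := liminf_le (2 * m) hb
  have hkey : ∀ S : ℝ, 0 ≤ S → S ≤ R + 1 → ENNReal.ofReal S * liminf (scaled (Dom (2 * m)) 1 4 ∞
      Crit.ran) atTop < limsup (scaled (Dom (2 * m)) 1 4 ∞ Crit.ran) atTop := by
    intro S hS hS1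
    calc ENNReal.ofReal S * liminf (scaled (Dom (2 * m)) 1 4 ∞ Crit.ran) atTop
        ≤ ENNReal.ofReal S * ENNReal.ofReal C := by gcongr
      _ = ENNReal.ofReal (S * C) := (ENNReal.ofReal_mul hS).symm
      _ < ENNReal.ofReal (2 ^ m / 16) :=
        (ENNReal.ofReal_lt_ofReal_iff (by positivity)).2 (lt_of_le_of_lt (by gcongr) h1)
      _ ≤ _ := hls
  have hlt : liminf (scaled (Dom (2 * m)) 1 4 ∞ Crit.ran) atTop
      < limsup (scaled (Dom (2 * m)) 1 4 ∞ Crit.ran) atTop := by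
    have h2 := hkey 1 zero_le_one (by
      have := R.2
      change (1 : ℝ) ≤ (R : ℝ) + 1
      linarith [NNReal.coe_nonneg R])
    rwa [ENNReal.ofReal_one, one_mul] at h2
  have hvol1 := volume_Dom_ge (2 * m)
  have hvol2 := volume_Dom_le hb
  have hprob : IsProbabilityMeasure (unif (Dom (2 * m))) :=
    unif_isProb (lt_of_lt_of_le zero_lt_one hvol1).ne'
      (lt_of_le_of_lt hvol2 (by norm_num)).ne
  refine ⟨inScope, rate_eq, Dom (2 * m), admissible_Dom hb, ?_, ?_, ?_, hlt, ?_, ?_⟩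
  · intro x hx
    exact Or.inl hx
  · intro x hx
    obtain ⟨⟨-, h3⟩, h4⟩ := Dom_subset hb hx
    refine ⟨⟨?_, h3⟩, h4⟩
    by_cases h0 : x 0 ≤ 0
    · obtain ⟨k, hk⟩ := Dom_nonpos hx h0
      have h5 : rho (2 * m) k ≤ (1 / 2) ^ m₂ := by
        unfold rho
        apply pow_le_pow_of_le_one (by norm_num) (by norm_num)
        nlinarith
      have h6 := hk.1.1
      linarith
    · linarith [not_le.1 h0]
  · have h2 := hkey R (NNReal.coe_nonneg R) (by linarith)
    rwa [ENNReal.ofReal_coe_nnreal] at h2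
  · exact cluster_set (minErr_antitone hprob Crit.ran) (fun n => rfl) hlt
  · rintro ⟨L, hL⟩
    rw [hL.liminf_eq, hL.limsup_eq] at hlt
    exact lt_irrefl _ hlt

end Pool.Agent.Results.MP_961271_an.LargeOscillation
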